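import Mathlib
import Pool.Agent.X82.RainbowDefs
import Pool.Agent.X82.Wires

/-!
# The set `K(G,H)` need not be an interval
-/

set_option autoImplicit false

namespace Pool.Agent.Results.MP_bfacb1_co.NotInterval

open Pool.Agent.X82.Rainbow

/-- `K(G,H)`: the numbers `k ≥ 1` such that `G` has a proper edge colouring with exactly `k`
colours appearing and no rainbow copy of `H` -/
def K {V W : Type} (G : SimpleGraph V) (H : SimpleGraph W) : Set ℕ :=
  {k | 1 ≤ k ∧ ∃ c : Sym2 V → ℕ, IsProper G c ∧ numColours G c = k ∧ ¬ HasRainbowCopy H G c}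

/-- the disjoint union of a 4-cycle and `q` copies of `K_2` -/
def H (q : ℕ) : SimpleGraph (Fin 4 ⊕ (Fin q × Bool)) where
  Adj x y := match x, y with
    | Sum.inl u, Sum.inl v => (SimpleGraph.cycleGraph 4).Adj u v
    | Sum.inl _, Sum.inr _ => False
    | Sum.inr _, Sum.inl _ => False
    | Sum.inr u, Sum.inr v => u.1 = v.1 ∧ u.2 ≠ v.2
  symm := ⟨by
    rintro (u | u) (v | v) h
    · exact SimpleGraph.Adj.symm h
    · exact h
    · exact h
    · exact ⟨h.1.symm, h.2.symm⟩⟩
  loopless := ⟨by
    rintro (u | u) h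
    · exact SimpleGraph.irrefl _ h
    · exact h.2 rfl⟩

/-- the disjoint union of `N` copies of `G` -/
def copies {V : Type} (G : SimpleGraph V) (N : ℕ) : SimpleGraph (Fin N × V) where
  Adj x y := x.1 = y.1 ∧ G.Adj x.2 y.2
  symm := ⟨fun _ _ h => ⟨h.1.symm, h.2.symm⟩⟩
  loopless := ⟨fun _ h => SimpleGraph.irrefl _ h.2⟩

variable {V : Type}

theorem edge_cases {q : ℕ} {e : Sym2 (Fin 4 ⊕ (Fin q × Bool))} (h : e ∈ (H q).edgeSet) :
    (∃ e1 ∈ (SimpleGraph.cycleGraph 4).edgeSet, e = e1.map Sum.inl) ∨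
      ∃ j : Fin q, e = s(Sum.inr (j, false), Sum.inr (j, true)) := by
  revert h
  refine Sym2.ind (fun u v => ?_) e
  intro h
  rcases u with u | ⟨u, a⟩ <;> rcases v with v | ⟨v, b⟩
  · left
    exact ⟨s(u, v), h, rfl⟩
  · exact h.elim
  · exact h.elim
  · right
    obtain ⟨h1, h2⟩ : u = v ∧ a ≠ b := h
    subst h1
    refine ⟨u, ?_⟩
    cases a <;> cases b
    · exact absurd rfl h2
    · rfl
    · exact Sym2.eq_swap
    · exact absurd rfl h2

theorem k2_edge {q : ℕ} (j : Fin q) :
    s(Sum.inr (j, false), Sum.inr (j, true)) ∈ (H q).edgeSet := by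
  show (H q).Adj (Sum.inr (j, false)) (Sum.inr (j, true))
  exact ⟨rfl, by simp⟩

theorem c4_sym : ∀ i j : Fin 4, s(i, i + 1) = s(j, j + 1) → i = j := by decide

/-- a rainbow copy of `H q` uses at least `4 + q` colours -/
theorem rainbow_card [Finite V] {G : SimpleGraph V} {c : Sym2 V → ℕ} {q : ℕ}
    (h : HasRainbowCopy (H q) G c) : 4 + q ≤ numColours G c := by
  obtain ⟨f, hf, ha, hr⟩ := h
  let g : Fin 4 ⊕ Fin q → Sym2 (Fin 4 ⊕ (Fin q × Bool)) := fun z => match z with
    | Sum.inl i => s(Sum.inl i, Sum.inl (i + 1))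
    | Sum.inr j => s(Sum.inr (j, false), Sum.inr (j, true))
  have hmem : ∀ z, g z ∈ (H q).edgeSet := by
    rintro (i | j)
    · show (SimpleGraph.cycleGraph 4).Adj i (i + 1)
      rw [SimpleGraph.cycleGraph_adj]
      revert i; decide
    · exact k2_edge j
  have hinj : Function.Injective g := by
    rintro (i | i) (j | j) h
    · have h1 : (s(Sum.inl i, Sum.inl (i + 1)) : Sym2 (Fin 4 ⊕ (Fin q × Bool))) =
        s(Sum.inl j, Sum.inl (j + 1)) := h
      rw [Sym2.eq_iff] at h1
      have key : ∀ i j : Fin 4, i = j + 1 → i + 1 = j → False := by decide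
      rcases h1 with ⟨h1, -⟩ | ⟨h1, h2⟩
      · rw [Sum.inl_injective h1]
      · exact (key i j (Sum.inl_injective h1) (Sum.inl_injective h2)).elim
    · exfalso
      have h1 : (s(Sum.inl i, Sum.inl (i + 1)) : Sym2 (Fin 4 ⊕ (Fin q × Bool))) =
        s(Sum.inr (j, false), Sum.inr (j, true)) := h
      rw [Sym2.eq_iff] at h1
      rcases h1 with ⟨h1, -⟩ | ⟨h1, -⟩ <;> cases h1
    · exfalso
      have h1 : (s(Sum.inr (i, false), Sum.inr (i, true)) : Sym2 (Fin 4 ⊕ (Fin q × Bool))) =
        s(Sum.inl j, Sum.inl (j + 1)) := h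
      rw [Sym2.eq_iff] at h1
      rcases h1 with ⟨h1, -⟩ | ⟨h1, -⟩ <;> cases h1
    · have h1 : (s(Sum.inr (i, false), Sum.inr (i, true)) : Sym2 (Fin 4 ⊕ (Fin q × Bool))) =
        s(Sum.inr (j, false), Sum.inr (j, true)) := h
      rw [Sym2.eq_iff] at h1
      rcases h1 with ⟨h1, -⟩ | ⟨h1, -⟩
      · have := Sum.inr_injective h1
        rw [Prod.mk.injEq] at this
        rw [this.1]
      · have := Sum.inr_injective h1
        rw [Prod.mk.injEq] at this
        exact absurd this.2 (by simp)
  let F : Fin 4 ⊕ Fin q → ℕ := fun z => c ((g z).map f)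
  have hF : Function.Injective F := by
    intro z z' h
    exact hinj (hr _ (hmem z) _ (hmem z') h)
  have hsub : Set.range F ⊆ c '' G.edgeSet := by
    rintro _ ⟨z, rfl⟩
    refine ⟨(g z).map f, ?_, rfl⟩
    have := hmem z
    revert this
    refine Sym2.ind (fun u v => ?_) (g z)
    intro h
    exact ha u v h
  have h1 : (Set.range F).ncard = 4 + q := by
    rw [← Nat.card_coe_set_eq, Nat.card_range_of_injective hF, Nat.card_eq_fintype_card,
      Fintype.card_sum, Fintype.card_fin, Fintype.card_fin]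
  rw [← h1]
  exact Set.ncard_le_ncard hsub (Set.toFinite _)

/-- the colouring of the copy with index `t` -/
def part {N : ℕ} (c : Sym2 (Fin N × V) → ℕ) (t : Fin N) : Sym2 V → ℕ :=
  fun e => c (e.map (Prod.mk t))

theorem part_proper {G : SimpleGraph V} {N : ℕ} {c : Sym2 (Fin N × V) → ℕ}
    (hc : IsProper (copies G N) c) (t : Fin N) : IsProper G (part c t) := by
  intro u v w h1 h2 h3
  refine hc (t, u) (t, v) (t, w) ⟨rfl, h1⟩ ⟨rfl, h2⟩ ?_
  intro h
  exact h3 (Prod.mk.injEq _ _ _ _ ▸ h).2

theorem part_image {G : SimpleGraph V} {N : ℕ} (c : Sym2 (Fin N × V) → ℕ) (t : Fin N) :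
    part c t '' G.edgeSet ⊆ c '' (copies G N).edgeSet := by
  rintro _ ⟨e, he, rfl⟩
  refine ⟨e.map (Prod.mk t), ?_, rfl⟩
  revert he
  refine Sym2.ind (fun u v => ?_) e
  intro h
  exact ⟨rfl, h⟩

theorem mem_part {G : SimpleGraph V} {N : ℕ} {c : Sym2 (Fin N × V) → ℕ} {x : ℕ}
    (hx : x ∈ c '' (copies G N).edgeSet) : ∃ t, x ∈ part c t '' G.edgeSet := by
  obtain ⟨e, he, rfl⟩ := hx
  revert he
  refine Sym2.ind (fun u v => ?_) e
  rintro ⟨h1, h2⟩
  obtain ⟨t, u⟩ := u
  obtain ⟨t', v⟩ := v
  simp only at h1 h2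
  subst h1
  exact ⟨t, s(u, v), h2, rfl⟩

/-- the same colouring on every copy -/
def same (N : ℕ) (c : Sym2 V → ℕ) : Sym2 (Fin N × V) → ℕ := fun e => c (e.map Prod.snd)

theorem same_proper {G : SimpleGraph V} {N : ℕ} {c : Sym2 V → ℕ} (hc : IsProper G c) :
    IsProper (copies G N) (same N c) := by
  rintro ⟨t, u⟩ ⟨t', v⟩ ⟨t'', w⟩ ⟨h1, h2⟩ ⟨h3, h4⟩ h5
  refine hc u v w h2 h4 ?_
  rintro rfl
  apply h5
  simp only at h1 h3
  rw [← h1, ← h3]

theorem same_image {G : SimpleGraph V} {N : ℕ} (c : Sym2 V → ℕ) (t : Fin N) :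
    same N c '' (copies G N).edgeSet = c '' G.edgeSet := by
  apply Set.Subset.antisymm
  · rintro _ ⟨e, he, rfl⟩
    refine ⟨e.map Prod.snd, ?_, rfl⟩
    revert he
    refine Sym2.ind (fun u v => ?_) e
    intro h
    exact h.2
  · have h1 : part (same N c) t = c := by
      funext e
      show c ((e.map (Prod.mk t)).map Prod.snd) = c e
      rw [Sym2.map_map]
      congr 1
      exact congrFun Sym2.map_id' e
    have h2 := part_image (G := G) (same N c) t
    rw [h1] at h2
    exact h2

/-- some colour `γ` is such that every other colour appears in many copies -/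
theorem exists_gamma {N : ℕ} (S : Fin N → Finset ℕ) (Pal : Finset ℕ) (hPal : Pal.Nonempty)
    (n q : ℕ) (hcard : Pal.card = n + 1) (hS : ∀ t, S t ⊆ Pal) (hn : ∀ t, n ≤ (S t).card)
    (hN : 2 * q + 3 ≤ N) : ∃ γ ∈ Pal, ∀ δ ∈ Pal, δ ≠ γ →
      q + 2 ≤ (Finset.univ.filter (fun t => δ ∈ S t)).card := by
  classical
  by_cases h : ∃ γ ∈ Pal, (Finset.univ.filter (fun t => γ ∈ S t)).card < q + 2
  · obtain ⟨γ, hγ, hlt⟩ := h
    refine ⟨γ, hγ, ?_⟩
    intro δ hδ hne
    have h1 : (Finset.univ.filter (fun t => γ ∈ S t))ᶜ ⊆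
        Finset.univ.filter (fun t => δ ∈ S t) := by
      intro t ht
      rw [Finset.mem_compl, Finset.mem_filter] at ht
      rw [Finset.mem_filter]
      refine ⟨Finset.mem_univ _, ?_⟩
      by_contra hcon
      have hγt : γ ∉ S t := fun h => ht ⟨Finset.mem_univ _, h⟩
      have h2 : S t ⊆ (Pal.erase γ).erase δ := by
        intro x hx
        rw [Finset.mem_erase, Finset.mem_erase]
        refine ⟨?_, ?_, hS t hx⟩
        · rintro rfl; exact hcon hx
        · rintro rfl; exact hγt hx
      have h3 := Finset.card_le_card h2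
      rw [Finset.card_erase_of_mem (Finset.mem_erase.mpr ⟨hne, hδ⟩),
        Finset.card_erase_of_mem hγ, hcard] at h3
      have h4 := hn t
      have h5 : 0 < ((Pal.erase γ).erase δ).card ∨ ((Pal.erase γ).erase δ).card = 0 := by omega
      have h6 : 2 ≤ Pal.card := by
        have : ({γ, δ} : Finset ℕ) ⊆ Pal := by
          intro x hx
          rw [Finset.mem_insert, Finset.mem_singleton] at hx
          rcases hx with rfl | rfl <;> assumption
        calc 2 = ({γ, δ} : Finset ℕ).card := (Finset.card_pair hne.symm).symm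
          _ ≤ _ := Finset.card_le_card this
      omega
    have h2 := Finset.card_le_card h1
    rw [Finset.card_compl, Fintype.card_fin] at h2
    omega
  · push Not at h
    obtain ⟨γ, hγ⟩ := hPal
    exact ⟨γ, hγ, fun δ hδ _ => h δ hδ⟩

/-- the main combinatorial lemma -/
theorem forced {G : SimpleGraph V} [Finite V] {q N : ℕ} (hχ : chromaticIndex G = q + 3)
    (hG : ∀ c, IsProper G c → numColours G c ≤ q + 4 → ¬ NoRainbow G c)
    (hN : 2 * q + 3 ≤ N) (c : Sym2 (Fin N × V) → ℕ) (hc : IsProper (copies G N) c)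
    (hnum : numColours (copies G N) c = q + 4) : HasRainbowCopy (H q) (copies G N) c := by
  classical
  have hfin : (c '' (copies G N).edgeSet).Finite := Set.toFinite _
  have hfinp : ∀ t, (part c t '' G.edgeSet).Finite := fun t => Set.toFinite _
  let Pal : Finset ℕ := hfin.toFinset
  let S : Fin N → Finset ℕ := fun t => (hfinp t).toFinset
  have hPalcard : Pal.card = (q + 3) + 1 := by
    rw [← Set.ncard_eq_toFinset_card _ hfin]
    exact hnum
  have hScard : ∀ t, (S t).card = numColours G (part c t) := fun t =>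
    (Set.ncard_eq_toFinset_card _ (hfinp t)).symm
  have hSsub : ∀ t, S t ⊆ Pal := by
    intro t x hx
    rw [Set.Finite.mem_toFinset] at hx ⊢
    exact part_image c t hx
  have hSn : ∀ t, q + 3 ≤ (S t).card := by
    intro t
    rw [hScard, ← hχ]
    exact index_le (part_proper hc t)
  have hPne : Pal.Nonempty := Finset.card_pos.mp (by omega)
  obtain ⟨γ, hγ, hmany⟩ := exists_gamma S Pal hPne (q + 3) q hPalcard hSsub hSn hN
  obtain ⟨t0, ht0⟩ := mem_part ((Set.Finite.mem_toFinset hfin).mp hγ)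
  have ht0' : γ ∈ S t0 := (Set.Finite.mem_toFinset (hfinp t0)).mpr ht0
  obtain ⟨t1, ht1⟩ : ∃ t1 : Fin N, t1 ≠ t0 := by
    have : Nontrivial (Fin N) := Fin.nontrivial_iff_two_le.mpr (by omega)
    exact exists_ne t0
  have hle : numColours G (part c t1) ≤ q + 4 := by
    rw [← hScard]
    have := Finset.card_le_card (hSsub t1)
    omega
  obtain ⟨x, hx, hxa, hxr⟩ := exists_c4 (part_proper hc t1) (hG _ (part_proper hc t1) hle)
  -- colours of the 4-cycle
  let qc : Fin 4 → ℕ := fun i => part c t1 s(x i, x (i + 1))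
  have hedge : ∀ i : Fin 4, s(i, i + 1) ∈ (SimpleGraph.cycleGraph 4).edgeSet := by
    intro i
    rw [SimpleGraph.mem_edgeSet, SimpleGraph.cycleGraph_adj]
    revert i; decide
  have hqinj : Function.Injective qc := by
    intro i j hij
    exact c4_sym i j (hxr _ (hedge i) _ (hedge j) hij)
  have hqmem : ∀ i, qc i ∈ Pal := by
    intro i
    apply hSsub t1
    rw [Set.Finite.mem_toFinset]
    exact ⟨s(x i, x (i + 1)), hxa i (i + 1) (hedge i), rfl⟩
  let Q : Finset ℕ := Finset.univ.image qc
  have hQcard : Q.card = 4 := by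
    rw [Finset.card_image_of_injective _ hqinj, Finset.card_univ, Fintype.card_fin]
  have hQsub : Q ⊆ Pal := by
    intro y hy
    rw [Finset.mem_image] at hy
    obtain ⟨i, -, rfl⟩ := hy
    exact hqmem i
  have hQall : ∀ e ∈ (SimpleGraph.cycleGraph 4).edgeSet, part c t1 (e.map x) ∈ Q := by
    intro e he
    rw [Finset.mem_image]
    rcases c4_edges he with rfl | rfl | rfl | rfl
    · exact ⟨0, Finset.mem_univ _, rfl⟩
    · exact ⟨1, Finset.mem_univ _, rfl⟩
    · exact ⟨2, Finset.mem_univ _, rfl⟩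
    · exact ⟨3, Finset.mem_univ _, rfl⟩
  let R : Finset ℕ := Pal \ Q
  have hRcard : R.card = q := by
    rw [Finset.card_sdiff_of_subset hQsub, hPalcard, hQcard]
    omega
  -- distinct copies for the remaining colours
  let T : R → Finset (Fin N) := fun δ => (Finset.univ.filter (fun t => δ.1 ∈ S t)).erase t1
  have hall : ∀ A : Finset R, A.card ≤ (A.biUnion T).card := by
    intro A
    by_cases hA : ∃ δ ∈ A, δ.1 ≠ γ
    · obtain ⟨δ, hδ, hne⟩ := hA
      have hδP : δ.1 ∈ Pal := (Finset.mem_sdiff.mp δ.2).1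
      have h1 := hmany δ.1 hδP hne
      have h2 : q + 1 ≤ (T δ).card := by
        have := Finset.pred_card_le_card_erase (s := Finset.univ.filter (fun t => δ.1 ∈ S t))
          (a := t1)
        show q + 1 ≤ ((Finset.univ.filter (fun t => δ.1 ∈ S t)).erase t1).card
        omega
      have h3 : T δ ⊆ A.biUnion T := Finset.subset_biUnion_of_mem T hδ
      have h4 := Finset.card_le_card h3
      have h5 : A.card ≤ q := by
        calc A.card ≤ Fintype.card R := Finset.card_le_univ A
          _ = q := by rw [Fintype.card_coe, hRcard]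
      omega
    · push Not at hA
      rcases A.eq_empty_or_nonempty with rfl | ⟨δ, hδ⟩
      · simp
      · have h1 : A ⊆ {δ} := by
          intro ε hε
          rw [Finset.mem_singleton]
          exact Subtype.ext ((hA ε hε).trans (hA δ hδ).symm)
        have h2 : A.card ≤ 1 := by
          have := Finset.card_le_card h1
          rwa [Finset.card_singleton] at this
        have h3 : t0 ∈ A.biUnion T := by
          rw [Finset.mem_biUnion]
          refine ⟨δ, hδ, ?_⟩
          show t0 ∈ (Finset.univ.filter (fun t => δ.1 ∈ S t)).erase t1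
          rw [Finset.mem_erase, Finset.mem_filter]
          refine ⟨ht1.symm, Finset.mem_univ _, ?_⟩
          rw [hA δ hδ]
          exact ht0'
        have h4 : 0 < (A.biUnion T).card := Finset.card_pos.mpr ⟨t0, h3⟩
        omega
  obtain ⟨τ, hτ, hτm⟩ := (Finset.all_card_le_biUnion_card_iff_exists_injective T).mp hall
  have hτ1 : ∀ δ, τ δ ≠ t1 := fun δ => (Finset.mem_erase.mp (hτm δ)).1
  have hτ2 : ∀ δ : R, ∃ u v, G.Adj u v ∧ part c (τ δ) s(u, v) = δ.1 := by
    intro δ
    have h1 := (Finset.mem_filter.mp (Finset.mem_erase.mp (hτm δ)).2).2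
    rw [Set.Finite.mem_toFinset] at h1
    obtain ⟨e, he, h2⟩ := h1
    revert he h2
    refine Sym2.ind (fun u v => ?_) e
    intro he h2
    exact ⟨u, v, he, h2⟩
  choose u v huv hcol using hτ2
  have eqv : Fin q ≃ R := (Fintype.equivFinOfCardEq (by rw [Fintype.card_coe, hRcard])).symm
  let f : Fin 4 ⊕ (Fin q × Bool) → Fin N × V := fun z => match z with
    | Sum.inl i => (t1, x i)
    | Sum.inr (j, b) => (τ (eqv j), if b then v (eqv j) else u (eqv j))
  refine ⟨f, ?_, ?_, ?_⟩
  · rintro (i | ⟨i, a⟩) (j | ⟨j, b⟩) h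
    · have h1 : (t1, x i) = (t1, x j) := h
      rw [hx (Prod.mk.inj h1).2]
    · have h1 : (t1, x i) = (τ (eqv j), if b then v (eqv j) else u (eqv j)) := h
      rw [Prod.mk.injEq] at h1
      exact absurd h1.1.symm (hτ1 _)
    · have h1 : (τ (eqv i), if a then v (eqv i) else u (eqv i)) = (t1, x j) := h
      rw [Prod.mk.injEq] at h1
      exact absurd h1.1 (hτ1 _)
    · have h1 : (τ (eqv i), if a then v (eqv i) else u (eqv i)) =
        (τ (eqv j), if b then v (eqv j) else u (eqv j)) := h
      rw [Prod.mk.injEq] at h1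
      have h2 : i = j := eqv.injective (hτ h1.1)
      subst h2
      have h3 := (huv (eqv i)).ne
      have h4 := h1.2
      cases a <;> cases b <;> simp at h4
      · rfl
      · exact absurd h4 h3
      · exact absurd h4.symm h3
      · rfl
  · rintro (i | ⟨i, a⟩) (j | ⟨j, b⟩) h
    · exact ⟨rfl, hxa i j h⟩
    · exact h.elim
    · exact h.elim
    · obtain ⟨h1, h2⟩ : i = j ∧ a ≠ b := h
      subst h1
      refine ⟨rfl, ?_⟩
      have h3 := huv (eqv i)
      cases a <;> cases b
      · exact absurd rfl h2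
      · exact h3
      · exact h3.symm
      · exact absurd rfl h2
  · have c1 : ∀ e1 : Sym2 (Fin 4), c ((e1.map Sum.inl : Sym2 (Fin 4 ⊕ (Fin q × Bool))).map f) =
        part c t1 (e1.map x) := by
      intro e1
      refine Sym2.ind (fun a b => ?_) e1
      rfl
    have c2 : ∀ j : Fin q, c ((s(Sum.inr (j, false), Sum.inr (j, true)) :
        Sym2 (Fin 4 ⊕ (Fin q × Bool))).map f) = (eqv j).1 := by
      intro j
      exact hcol (eqv j)
    intro e he e' he' h
    rcases edge_cases he with ⟨e1, he1, rfl⟩ | ⟨j, rfl⟩ <;>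
      rcases edge_cases he' with ⟨e2, he2, rfl⟩ | ⟨j', rfl⟩
    · rw [c1, c1] at h
      rw [hxr e1 he1 e2 he2 h]
    · rw [c1, c2] at h
      exfalso
      have h1 := hQall e1 he1
      rw [h] at h1
      exact (Finset.mem_sdiff.mp (eqv j').2).2 h1
    · rw [c1, c2] at h
      exfalso
      have h1 := hQall e2 he2
      rw [← h] at h1
      exact (Finset.mem_sdiff.mp (eqv j).2).2 h1
    · rw [c2, c2] at h
      rw [eqv.injective (Subtype.ext h)]

/-- There are finite graphs `G`, `H` and integers `a < b < d` with `a, d ∈ K(G,H)` and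
`b ∉ K(G,H)`; so `K(G,H)` is not always an interval. -/
theorem result : ∃ (V W : Type) (_ : Fintype V) (_ : Fintype W) (G : SimpleGraph V)
    (H : SimpleGraph W) (a b d : ℕ), a < b ∧ b < d ∧ a ∈ K G H ∧ b ∉ K G H ∧ d ∈ K G H := by
  let G := Pool.Agent.X82.Wires.G 26
  have hX : chromaticIndex G ≤ 24 := by
    obtain ⟨c, hp, hc⟩ := Pool.Agent.X82.Wires.few_colours 26
    exact (index_le hp).trans (numColours_le hc)
  have hG : ∀ c, IsProper G c → numColours G c ≤ 25 → ¬ NoRainbow G c := by
    intro c hp hc hn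
    have h1 : 26 ≤ numColours G c := Pool.Agent.X82.Wires.many_colours hp hn
    omega
  obtain ⟨c0, hp0, hc0⟩ := exists_index G
  have hX3 : 4 ≤ chromaticIndex G := by
    obtain ⟨x, hx, ha, hr⟩ := exists_c4 hp0 (hG c0 hp0 (by omega))
    have hedge : ∀ i : Fin 4, s(i, i + 1) ∈ (SimpleGraph.cycleGraph 4).edgeSet := by
      intro i
      rw [SimpleGraph.mem_edgeSet, SimpleGraph.cycleGraph_adj]
      revert i; decide
    have hinj : Function.Injective (fun i : Fin 4 => c0 s(x i, x (i + 1))) := by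
      intro i j hij
      exact c4_sym i j (hr _ (hedge i) _ (hedge j) hij)
    have hsub : Set.range (fun i : Fin 4 => c0 s(x i, x (i + 1))) ⊆ c0 '' G.edgeSet := by
      rintro _ ⟨i, rfl⟩
      exact ⟨_, ha i (i + 1) (hedge i), rfl⟩
    have h1 : (Set.range (fun i : Fin 4 => c0 s(x i, x (i + 1)))).ncard = 4 := by
      rw [← Nat.card_coe_set_eq, Nat.card_range_of_injective hinj, Nat.card_eq_fintype_card,
        Fintype.card_fin]
    rw [← hc0, ← h1]
    exact Set.ncard_le_ncard hsub (Set.toFinite _)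
  obtain ⟨q, hq⟩ : ∃ q, chromaticIndex G = q + 3 := ⟨chromaticIndex G - 3, by omega⟩
  let N := 2 * q + 3
  let t : Fin N := ⟨0, by omega⟩
  obtain ⟨c1, hp1, hn1⟩ := Pool.Agent.X82.Wires.no_rainbow 26
  have hnum1 : 26 ≤ numColours G c1 := Pool.Agent.X82.Wires.many_colours hp1 hn1
  refine ⟨Fin N × Pool.Agent.X82.Wires.Vt 26, Fin 4 ⊕ (Fin q × Bool), inferInstance, inferInstance,
    copies G N, H q, q + 3, q + 4, numColours G c1, by omega, by omega, ?_, ?_, ?_⟩
  · refine ⟨by omega, same N c0, same_proper hp0, ?_, ?_⟩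
    · unfold numColours at hc0 ⊢
      rw [same_image c0 t, hc0, hq]
    · intro h
      have h1 := rainbow_card h
      unfold numColours at h1 hc0
      rw [same_image c0 t, hc0, hq] at h1
      omega
  · rintro ⟨-, c, hp, hc, hno⟩
    exact hno (forced hq (fun c hp hc => hG c hp (by omega)) le_rfl c hp hc)
  · refine ⟨by omega, same N c1, same_proper hp1, ?_, ?_⟩
    · unfold numColours
      rw [same_image c1 t]
    · rintro ⟨f, hf, ha, hr⟩
      -- the 4-cycle of the copy lies in one copy of `G`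
      have hadj : ∀ i j, (SimpleGraph.cycleGraph 4).Adj i j →
          (copies G N).Adj (f (Sum.inl i)) (f (Sum.inl j)) := fun i j h => ha _ _ h
      have hfst : ∀ i : Fin 4, (f (Sum.inl i)).1 = (f (Sum.inl 0)).1 := by
        have h01 := (hadj _ _ c4_adj01).1
        have h12 := (hadj _ _ c4_adj12).1
        have h30 := (hadj _ _ c4_adj30).1
        intro i
        fin_cases i
        · rfl
        · exact h01.symm
        · exact (h01.trans h12).symm
        · exact h30
      refine no_c4 hn1 (fun i => (f (Sum.inl i)).2) ?_ ?_ ?_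
      · intro i j hij
        have : f (Sum.inl i) = f (Sum.inl j) := Prod.ext ((hfst i).trans (hfst j).symm) hij
        exact Sum.inl_injective (hf this)
      · intro i j hij
        exact (hadj i j hij).2
      · intro e he e' he' hcc
        have hm : ∀ e1 : Sym2 (Fin 4),
            same N c1 ((e1.map Sum.inl : Sym2 (Fin 4 ⊕ (Fin q × Bool))).map f) =
            c1 (e1.map (fun i => (f (Sum.inl i)).2)) := by
          intro e1
          refine Sym2.ind (fun a b => ?_) e1
          rfl
        have hme : ∀ e1 ∈ (SimpleGraph.cycleGraph 4).edgeSet,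
            (e1.map Sum.inl : Sym2 (Fin 4 ⊕ (Fin q × Bool))) ∈ (H q).edgeSet := by
          intro e1
          refine Sym2.ind (fun a b => ?_) e1
          intro h
          exact h
        have := hr _ (hme e he) _ (hme e' he') (by rw [hm, hm]; exact hcc)
        exact Sym2.map.injective Sum.inl_injective this

end Pool.Agent.Results.MP_bfacb1_co.NotInterval
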